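import Mathlib

/-!
# Immersed symplectic surfaces and the Chern numbers of branched coverings: definitions

`V = H_2(X; ℝ)`, `B` is the intersection form, `K` is the canonical class, `e` is the Euler number of `X`,
`t i` is the class and `g i` the genus of the immersed surface number `i`, and `b p i` is the number of
its branches through the point number `p`. The points of `Bl` are blown up. The weights are `w i` for the
surfaces and `z p` for the exceptional spheres.
-/

set_option autoImplicit false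

open Finset

namespace Pool.Agent.Helper14.BI

variable {k m : ℕ} {V : Type} [AddCommGroup V] [Module ℝ V]

/-- the number of branches through the point `p` -/
def mult (b : Fin m → Fin k → ℕ) (p : Fin m) : ℕ := ∑ i, b p i

/-- the sum of the weights of the branches through `p` -/
noncomputable def sw (b : Fin m → Fin k → ℕ) (w : Fin k → ℝ) (p : Fin m) : ℝ := ∑ i, b p i * w i

/-- the sum of the squares of the weights of the branches through `p` -/
noncomputable def qw (b : Fin m → Fin k → ℕ) (w : Fin k → ℝ) (p : Fin m) : ℝ :=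
  ∑ i, b p i * w i ^ 2

/-- Adjunction for immersed surfaces whose self-intersections are positive and transverse, and the
surfaces meet pairwise positively and transversely, with the branches `b`. -/
structure Arr (B : V →ₗ[ℝ] V →ₗ[ℝ] ℝ) (K : V) (b : Fin m → Fin k → ℕ) (g : Fin k → ℕ)
    (t : Fin k → V) : Prop where
  adj : ∀ i, B K (t i) + B (t i) (t i) = 2 * g i - 2 + ∑ p, (b p i : ℝ) * (b p i - 1)
  inter : ∀ i j, i ≠ j → B (t i) (t j) = ∑ p, (b p i : ℝ) * b p j

/-- the Euler number of the normal bundle of the immersion: `2 g - 2 - K . C` -/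
noncomputable def nrm (B : V →ₗ[ℝ] V →ₗ[ℝ] ℝ) (K : V) (g : Fin k → ℕ) (t : Fin k → V) (i : Fin k) : ℝ :=
  2 * g i - 2 - B K (t i)

/-- `c_2` of the covering, divided by its degree: the sum over the strata of the Euler number times the
product of the `1 - weight`. -/
noncomputable def cTwo (b : Fin m → Fin k → ℕ) (e : ℝ) (g : Fin k → ℕ) (Bl : Finset (Fin m))
    (w : Fin k → ℝ) (z : Fin m → ℝ) : ℝ :=
  (e + ∑ i, (2 * (g i : ℝ) - 2) + ∑ p, ((mult b p : ℝ) - 1)) +
    ∑ i, (2 - 2 * (g i : ℝ) - ∑ p, (b p i : ℝ)) * (1 - w i) +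
    ∑ p ∈ univ \ Bl, ∏ i, (1 - w i) ^ b p i +
    ∑ p ∈ Bl, ((2 - (mult b p : ℝ)) * (1 - z p) + ∑ i, b p i * ((1 - w i) * (1 - z p)))

/-- `c_1²` of the covering, divided by its degree: the square of `K + ∑ w_i C_i + ∑ (1 + z_p - s_p) E_p`,
where `q` is the square of `K + ∑ w_i C_i` in `X` and `s_p = sw b w p`. -/
noncomputable def cOneSq (b : Fin m → Fin k → ℕ) (q : ℝ) (Bl : Finset (Fin m)) (w : Fin k → ℝ)
    (z : Fin m → ℝ) : ℝ :=
  q - ∑ p ∈ Bl, (1 + z p - sw b w p) ^ 2

/-- the sum of the `w_i (2 g_i - 2 + (2 - w_i) n_i)`, where `n_i` is the Euler number of the normal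
bundle -/
noncomputable def curv (B : V →ₗ[ℝ] V →ₗ[ℝ] ℝ) (K : V) (g : Fin k → ℕ) (t : Fin k → V)
    (w : Fin k → ℝ) : ℝ :=
  ∑ i, w i * (2 * (g i : ℝ) - 2 + (2 - w i) * nrm B K g t i)

/-- The costs `κ p` are admissible for `δ`: every blown up point contributes at least
`δ (s² - q) - κ p`, where `s` is the sum of the weights and `q` the sum of the squares of the weights of
the branches through the point. -/
def Cost (b : Fin m → Fin k → ℕ) (Bl : Finset (Fin m)) (w : Fin k → ℝ) (z : Fin m → ℝ)
    (δ : ℝ) (κ : Fin m → ℝ) : Prop :=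
  ∀ p ∈ Bl, δ * (sw b w p ^ 2 - qw b w p) - κ p ≤
    (z p + sw b w p / 2 - 2) ^ 2 + (qw b w p - sw b w p ^ 2 / 4)

/-- the sum over the points of `s² - q`: every ordered pair of different branches through a point counts
with the product of the two weights -/
noncomputable def pairs (b : Fin m → Fin k → ℕ) (w : Fin k → ℝ) : ℝ :=
  ∑ p, (sw b w p ^ 2 - qw b w p)

/-- the sum of the `w_i √|C_i²|` -/
noncomputable def star (B : V →ₗ[ℝ] V →ₗ[ℝ] ℝ) (t : Fin k → V) (w : Fin k → ℝ) : ℝ :=
  ∑ i, w i * √|B (t i) (t i)|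

open scoped Classical in
/-- the sum of the `w_i` over the surfaces with `g_i = 0` or `g_i + n_i < 1` -/
noncomputable def low (B : V →ₗ[ℝ] V →ₗ[ℝ] ℝ) (K : V) (g : Fin k → ℕ) (t : Fin k → V)
    (w : Fin k → ℝ) : ℝ :=
  ∑ i, if g i = 0 ∨ (g i : ℝ) + nrm B K g t i < 1 then w i else 0

end Pool.Agent.Helper14.BI
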