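import Pool.Agent.Helper14.BI.Defs

/-!
Immersed surfaces: the comparison of the Chern numbers of the covers, and the admissible costs.
-/

set_option autoImplicit false

open Finset

namespace Pool.Agent.Helper14.BI

variable {k m : ℕ} {V : Type} [AddCommGroup V] [Module ℝ V] {K : V} {g : Fin k → ℕ}

private lemma peel {b : Fin k → ℕ} {n : ℕ} (h : ∑ i, b i = n + 1) :
    ∃ (i₀ : Fin k) (c : Fin k → ℕ), ∑ i, c i = n ∧ ∀ i, b i = c i + if i₀ = i then 1 else 0 := by
  obtain ⟨i₀, -, hi₀⟩ := Finset.exists_ne_zero_of_sum_ne_zero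
    (show ∑ i, b i ≠ 0 by rw [h]; exact Nat.succ_ne_zero n)
  have h1 : ∀ i, b i = (b i - if i₀ = i then 1 else 0) + if i₀ = i then 1 else 0 := by
    intro i
    split_ifs with h2
    · subst h2
      omega
    · rfl
  refine ⟨i₀, fun i => b i - if i₀ = i then 1 else 0, ?_, h1⟩
  have h2 : ∑ i, b i = ∑ i, (b i - if i₀ = i then 1 else 0) + ∑ i, if i₀ = i then 1 else 0 := by
    rw [← Finset.sum_add_distrib]
    exact Finset.sum_congr rfl fun i _ => h1 i
  rw [Finset.sum_ite_eq, if_pos (Finset.mem_univ i₀)] at h2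
  show ∑ i, (b i - if i₀ = i then 1 else 0) = n
  omega

/-- The two branches through an ordinary double point. -/
private lemma two {b : Fin k → ℕ} (h : ∑ i, b i = 2) : ∃ i₀ j₀ : Fin k,
    ∀ i, b i = (if i₀ = i then 1 else 0) + if j₀ = i then 1 else 0 := by
  obtain ⟨i₀, c, hc, h1⟩ := peel h
  obtain ⟨j₀, d, hd, h2⟩ := peel hc
  have h3 : ∀ i, d i = 0 := fun i => by
    have := Finset.sum_eq_zero_iff.1 hd i (Finset.mem_univ i)
    exact this
  refine ⟨j₀, i₀, fun i => ?_⟩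
  rw [h1 i, h2 i, h3 i, zero_add]

private lemma node_facts {b : Fin m → Fin k → ℕ} {p : Fin m} (h : mult b p = 2) (w : Fin k → ℝ) :
    ∃ x y : Fin k, sw b w p = w x + w y ∧ qw b w p = w x ^ 2 + w y ^ 2 ∧
      ∏ i, (1 - w i) ^ b p i = (1 - w x) * (1 - w y) := by
  obtain ⟨x, y, hxy⟩ := two h
  refine ⟨x, y, ?_, ?_, ?_⟩
  · unfold sw
    have e : ∀ i, (b p i : ℝ) * w i = (if x = i then w i else 0) + if y = i then w i else 0 := by
      intro i
      rw [hxy i]
      push_cast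
      split_ifs <;> ring
    rw [Finset.sum_congr rfl fun i _ => e i, Finset.sum_add_distrib, Finset.sum_ite_eq,
      Finset.sum_ite_eq, if_pos (Finset.mem_univ x), if_pos (Finset.mem_univ y)]
  · unfold qw
    have e : ∀ i, (b p i : ℝ) * w i ^ 2 =
        (if x = i then w i ^ 2 else 0) + if y = i then w i ^ 2 else 0 := by
      intro i
      rw [hxy i]
      push_cast
      split_ifs <;> ring
    rw [Finset.sum_congr rfl fun i _ => e i, Finset.sum_add_distrib, Finset.sum_ite_eq,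
      Finset.sum_ite_eq, if_pos (Finset.mem_univ x), if_pos (Finset.mem_univ y)]
  · have e : ∀ i, (1 - w i) ^ b p i = (if x = i then 1 - w i else 1) * if y = i then 1 - w i else 1 := by
      intro i
      rw [hxy i, pow_add]
      split_ifs <;> simp
    rw [Finset.prod_congr rfl fun i _ => e i, Finset.prod_mul_distrib, Finset.prod_ite_eq,
      Finset.prod_ite_eq, if_pos (Finset.mem_univ x), if_pos (Finset.mem_univ y)]

private lemma sum_branches (b : Fin m → Fin k → ℕ) (w : Fin k → ℝ) (p : Fin m) :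
    ∑ i, (b p i : ℝ) * (1 - w i) = mult b p - sw b w p := by
  unfold mult sw
  push_cast
  rw [← Finset.sum_sub_distrib]
  exact Finset.sum_congr rfl fun i _ => by ring

/-- the square of the branch class -/
theorem tsq {B : V →ₗ[ℝ] V →ₗ[ℝ] ℝ} {b : Fin m → Fin k → ℕ} {t : Fin k → V}
    (h : Arr B K b g t) (w : Fin k → ℝ) :
    ∑ i, ∑ j, w i * w j * B (t i) (t j) =
      ∑ i, w i ^ 2 * nrm B K g t i + pairs b w := by
  have h1 : ∀ i j, w i * w j * B (t i) (t j) =
      (if i = j then w i ^ 2 * nrm B K g t i - ∑ p, (b p i : ℝ) * w i ^ 2 else 0) +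
        ∑ p, (b p i * w i) * (b p j * w j) := by
    intro i j
    by_cases hij : i = j
    · subst hij
      rw [if_pos rfl]
      have h2 : B (t i) (t i) = nrm B K g t i + ∑ p, (b p i : ℝ) * (b p i - 1) := by
        have := h.adj i
        unfold nrm
        linarith
      rw [h2, mul_add, Finset.mul_sum, ← sq]
      rw [sub_add, sub_eq_add_neg, ← Finset.sum_sub_distrib, ← Finset.sum_neg_distrib]
      congr 1
      exact Finset.sum_congr rfl fun p _ => by ring
    · rw [if_neg hij, zero_add, h.inter i j hij, Finset.mul_sum]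
      exact Finset.sum_congr rfl fun p _ => by ring
  simp only [h1, Finset.sum_add_distrib]
  have h2 : ∑ i, ∑ j, (if i = j then w i ^ 2 * nrm B K g t i - ∑ p, (b p i : ℝ) * w i ^ 2 else 0) =
      ∑ i, w i ^ 2 * nrm B K g t i - ∑ p, qw b w p := by
    have h3 : ∀ i, ∑ j, (if i = j then w i ^ 2 * nrm B K g t i - ∑ p, (b p i : ℝ) * w i ^ 2 else 0) =
        w i ^ 2 * nrm B K g t i - ∑ p, (b p i : ℝ) * w i ^ 2 := fun i => by
      rw [Finset.sum_ite_eq, if_pos (Finset.mem_univ i)]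
    rw [Finset.sum_congr rfl fun i _ => h3 i, Finset.sum_sub_distrib, Finset.sum_comm]
    rfl
  have h3 : ∑ i, ∑ j, ∑ p, ((b p i : ℝ) * w i) * (b p j * w j) = ∑ p, sw b w p ^ 2 := by
    rw [Finset.sum_congr rfl fun i _ => Finset.sum_comm, Finset.sum_comm]
    refine Finset.sum_congr rfl fun p _ => ?_
    unfold sw
    rw [sq, Finset.sum_mul_sum]
  rw [h2, h3]
  unfold pairs
  rw [Finset.sum_sub_distrib]
  ring

/-- **The comparison of the Chern numbers.** -/
theorem gap {B : V →ₗ[ℝ] V →ₗ[ℝ] ℝ} (hB : ∀ x y, B x y = B y x)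
    {b : Fin m → Fin k → ℕ} {t : Fin k → V} (h : Arr B K b g t) (e : ℝ) (Bl : Finset (Fin m))
    (hBl : ∀ p ∉ Bl, mult b p = 2) (w : Fin k → ℝ) (z : Fin m → ℝ) :
    cOneSq b (B (K + ∑ i, w i • t i) (K + ∑ i, w i • t i)) Bl w z + (3 * e - B K K) +
      curv B K g t w +
      ∑ p ∈ Bl, ((z p + sw b w p / 2 - 2) ^ 2 + (qw b w p - sw b w p ^ 2 / 4)) +
      ∑ p ∈ univ \ Bl, (sw b w p ^ 2 - qw b w p) / 2 = 3 * cTwo b e g Bl w z := by
  have split : ∀ f : Fin m → ℝ, ∑ p, f p = ∑ p ∈ Bl, f p + ∑ p ∈ univ \ Bl, f p := by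
    intro f
    rw [← Finset.compl_eq_univ_sdiff, Finset.sum_add_sum_compl]
  have hsq : B (K + ∑ i, w i • t i) (K + ∑ i, w i • t i) =
      B K K + 2 * ∑ i, w i * B K (t i) + (∑ i, w i ^ 2 * nrm B K g t i + pairs b w) := by
    rw [← tsq h w]
    have h1 : B K (∑ i, w i • t i) = ∑ i, w i * B K (t i) := by
      rw [map_sum]
      exact Finset.sum_congr rfl fun i _ => by rw [map_smul, smul_eq_mul]
    have h2 : B (∑ i, w i • t i) (∑ j, w j • t j) = ∑ i, ∑ j, w i * w j * B (t i) (t j) := by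
      rw [map_sum B, LinearMap.sum_apply]
      refine Finset.sum_congr rfl fun i _ => ?_
      rw [map_sum]
      refine Finset.sum_congr rfl fun j _ => ?_
      rw [map_smul, map_smul, LinearMap.smul_apply, smul_eq_mul, smul_eq_mul]
      ring
    have h3 : B (K + ∑ i, w i • t i) (K + ∑ i, w i • t i) = B K K + B K (∑ i, w i • t i) +
        (B (∑ i, w i • t i) K + B (∑ i, w i • t i) (∑ i, w i • t i)) := by
      rw [map_add B, LinearMap.add_apply, map_add, map_add]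
    rw [h3, h1, h2, hB (∑ i, w i • t i) K, h1]
    ring
  have hc : curv B K g t w + 2 * ∑ i, w i * B K (t i) + ∑ i, w i ^ 2 * nrm B K g t i =
      3 * ∑ i, (2 * (g i : ℝ) - 2) + 3 * ∑ i, (2 - 2 * (g i : ℝ)) * (1 - w i) := by
    unfold curv nrm
    rw [Finset.mul_sum, Finset.mul_sum, Finset.mul_sum, ← Finset.sum_add_distrib,
      ← Finset.sum_add_distrib, ← Finset.sum_add_distrib]
    exact Finset.sum_congr rfl fun i _ => by ring
  have hdeg : ∑ i, (∑ p, (b p i : ℝ)) * (1 - w i) = ∑ p, ((mult b p : ℝ) - sw b w p) := by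
    rw [Finset.sum_congr rfl fun i _ => Finset.sum_mul _ _ _, Finset.sum_comm]
    exact Finset.sum_congr rfl fun p _ => sum_branches b w p
  have hcurve : ∑ i, (2 - 2 * (g i : ℝ) - ∑ p, (b p i : ℝ)) * (1 - w i) =
      ∑ i, (2 - 2 * (g i : ℝ)) * (1 - w i) - ∑ p, ((mult b p : ℝ) - sw b w p) := by
    rw [← hdeg, ← Finset.sum_sub_distrib]
    exact Finset.sum_congr rfl fun i _ => by ring
  have hbl : ∑ p ∈ Bl, ((2 - (mult b p : ℝ)) * (1 - z p) + ∑ i, b p i * ((1 - w i) * (1 - z p))) =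
      ∑ p ∈ Bl, (2 - sw b w p) * (1 - z p) := by
    refine Finset.sum_congr rfl fun p _ => ?_
    have h1 : ∑ i, (b p i : ℝ) * ((1 - w i) * (1 - z p)) =
        (mult b p - sw b w p) * (1 - z p) := by
      rw [← sum_branches, Finset.sum_mul]
      exact Finset.sum_congr rfl fun i _ => by ring
    rw [h1]
    ring
  have hnode : ∑ p ∈ univ \ Bl, ∏ i, (1 - w i) ^ b p i =
      ∑ p ∈ univ \ Bl, (1 - sw b w p + (sw b w p ^ 2 - qw b w p) / 2) := by
    refine Finset.sum_congr rfl fun p hp => ?_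
    obtain ⟨x, y, h1, h2, h3⟩ := node_facts (hBl p (Finset.mem_sdiff.mp hp).2) w
    rw [h1, h2, h3]
    ring
  have hm2 : ∑ p ∈ univ \ Bl, (mult b p : ℝ) = ∑ p ∈ univ \ Bl, (2 : ℝ) :=
    Finset.sum_congr rfl fun p hp => by
      rw [hBl p (Finset.mem_sdiff.mp hp).2]
      norm_num
  unfold cOneSq cTwo
  rw [hsq, hcurve, hbl, hnode, split fun p => (mult b p : ℝ) - 1,
    split fun p => (mult b p : ℝ) - sw b w p]
  unfold pairs
  rw [split fun p => sw b w p ^ 2 - qw b w p]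
  have p1 : ∑ p ∈ Bl, (sw b w p ^ 2 - qw b w p) - ∑ p ∈ Bl, (1 + z p - sw b w p) ^ 2 +
      ∑ p ∈ Bl, ((z p + sw b w p / 2 - 2) ^ 2 + (qw b w p - sw b w p ^ 2 / 4)) =
      3 * ∑ p ∈ Bl, ((mult b p : ℝ) - 1) - 3 * ∑ p ∈ Bl, ((mult b p : ℝ) - sw b w p) +
        3 * ∑ p ∈ Bl, (2 - sw b w p) * (1 - z p) := by
    rw [Finset.mul_sum, Finset.mul_sum, Finset.mul_sum, ← Finset.sum_sub_distrib,
      ← Finset.sum_add_distrib, ← Finset.sum_sub_distrib, ← Finset.sum_add_distrib]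
    exact Finset.sum_congr rfl fun p _ => by ring
  have p2 : ∑ p ∈ univ \ Bl, (sw b w p ^ 2 - qw b w p) +
      ∑ p ∈ univ \ Bl, (sw b w p ^ 2 - qw b w p) / 2 =
      3 * ∑ p ∈ univ \ Bl, ((mult b p : ℝ) - 1) - 3 * ∑ p ∈ univ \ Bl, ((mult b p : ℝ) - sw b w p) +
        3 * ∑ p ∈ univ \ Bl, (1 - sw b w p + (sw b w p ^ 2 - qw b w p) / 2) := by
    rw [Finset.mul_sum, Finset.mul_sum, Finset.mul_sum, ← Finset.sum_sub_distrib,
      ← Finset.sum_add_distrib, ← Finset.sum_add_distrib]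
    refine Finset.sum_congr rfl fun p _ => ?_
    ring
  linarith

private lemma node_nonneg {b : Fin m → Fin k → ℕ} {p : Fin m} (h : mult b p = 2) {w : Fin k → ℝ}
    (hw : ∀ i, 0 ≤ w i) : 0 ≤ sw b w p ^ 2 - qw b w p := by
  obtain ⟨x, y, h1, h2, -⟩ := node_facts h w
  rw [h1, h2]
  have := mul_nonneg (hw x) (hw y)
  nlinarith

/-- **The inequality with the sum over the pairs of branches.** -/
theorem main_pairs {B : V →ₗ[ℝ] V →ₗ[ℝ] ℝ} (hB : ∀ x y, B x y = B y x)
    {b : Fin m → Fin k → ℕ} {t : Fin k → V} (h : Arr B K b g t) (e : ℝ) (Bl : Finset (Fin m))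
    (hBl : ∀ p ∉ Bl, mult b p = 2) (w : Fin k → ℝ) (hw : ∀ i, 0 ≤ w i) (z : Fin m → ℝ)
    {δ : ℝ} (hδ : δ ≤ 1 / 2) {κ : Fin m → ℝ} (hc : Cost b Bl w z δ κ) :
    cOneSq b (B (K + ∑ i, w i • t i) (K + ∑ i, w i • t i)) Bl w z + (3 * e - B K K) +
      curv B K g t w + δ * pairs b w ≤ 3 * cTwo b e g Bl w z + ∑ p ∈ Bl, κ p := by
  have hgap := gap hB h e Bl hBl w z
  have split : ∀ f : Fin m → ℝ, ∑ p, f p = ∑ p ∈ Bl, f p + ∑ p ∈ univ \ Bl, f p := by
    intro f
    rw [← Finset.compl_eq_univ_sdiff, Finset.sum_add_sum_compl]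
  have h1 : δ * ∑ p ∈ Bl, (sw b w p ^ 2 - qw b w p) ≤
      ∑ p ∈ Bl, ((z p + sw b w p / 2 - 2) ^ 2 + (qw b w p - sw b w p ^ 2 / 4)) +
        ∑ p ∈ Bl, κ p := by
    rw [Finset.mul_sum, ← Finset.sum_add_distrib]
    refine Finset.sum_le_sum fun p hp => ?_
    have := hc p hp
    linarith
  have h2 : δ * ∑ p ∈ univ \ Bl, (sw b w p ^ 2 - qw b w p) ≤
      ∑ p ∈ univ \ Bl, (sw b w p ^ 2 - qw b w p) / 2 := by
    rw [Finset.mul_sum]
    refine Finset.sum_le_sum fun p hp => ?_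
    have := node_nonneg (hBl p (Finset.mem_sdiff.mp hp).2) hw
    nlinarith
  unfold pairs
  rw [split fun p => sw b w p ^ 2 - qw b w p, mul_add]
  linarith

/-- Cauchy and Schwarz at a point. -/
private lemma cs (b : Fin m → Fin k → ℕ) (w : Fin k → ℝ) (p : Fin m) :
    sw b w p ^ 2 ≤ mult b p * qw b w p := by
  rcases Nat.eq_zero_or_pos (mult b p) with h0 | h0
  · have h1 : ∀ i, b p i = 0 := fun i => Finset.sum_eq_zero_iff.1 h0 i (Finset.mem_univ i)
    have h2 : sw b w p = 0 := by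
      unfold sw
      exact Finset.sum_eq_zero fun i _ => by rw [h1 i]; simp
    rw [h0, h2]
    simp
  · have h1 : (0 : ℝ) < mult b p := by exact_mod_cast h0
    have h2 : 0 ≤ ∑ i, (b p i : ℝ) * (sw b w p - mult b p * w i) ^ 2 :=
      Finset.sum_nonneg fun i _ => mul_nonneg (Nat.cast_nonneg _) (sq_nonneg _)
    have h3 : ∑ i, (b p i : ℝ) * (sw b w p - mult b p * w i) ^ 2 =
        sw b w p ^ 2 * mult b p - 2 * mult b p * sw b w p * sw b w p +
          mult b p ^ 2 * qw b w p := by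
      have e1 : ∀ i, (b p i : ℝ) * (sw b w p - mult b p * w i) ^ 2 =
          sw b w p ^ 2 * b p i - 2 * mult b p * sw b w p * (b p i * w i) +
            mult b p ^ 2 * (b p i * w i ^ 2) := fun i => by ring
      rw [Finset.sum_congr rfl fun i _ => e1 i, Finset.sum_add_distrib, Finset.sum_sub_distrib,
        ← Finset.mul_sum, ← Finset.mul_sum, ← Finset.mul_sum]
      have e2 : ∑ i, (b p i : ℝ) = mult b p := by
        unfold mult
        push_cast
        rfl
      rw [e2]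
      rfl
    rw [h3] at h2
    have h4 : 0 ≤ (mult b p : ℝ) * (mult b p * qw b w p - sw b w p ^ 2) := by
      have e : (mult b p : ℝ) * (mult b p * qw b w p - sw b w p ^ 2) =
        sw b w p ^ 2 * mult b p - 2 * mult b p * sw b w p * sw b w p +
          mult b p ^ 2 * qw b w p := by ring
      rw [e]
      exact h2
    have h5 := nonneg_of_mul_nonneg_right h4 h1
    linarith

private lemma qw_nonneg (b : Fin m → Fin k → ℕ) (w : Fin k → ℝ) (p : Fin m) : 0 ≤ qw b w p :=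
  Finset.sum_nonneg fun _ _ => mul_nonneg (Nat.cast_nonneg _) (sq_nonneg _)

private lemma sw_nonneg (b : Fin m → Fin k → ℕ) {w : Fin k → ℝ} (hw : ∀ i, 0 ≤ w i) (p : Fin m) :
    0 ≤ sw b w p :=
  Finset.sum_nonneg fun i _ => mul_nonneg (Nat.cast_nonneg _) (hw i)

/-- All real `z`: a point of multiplicity `k` costs at most `((k - 4) + 4 δ (k - 1)) / (4 k)` times the
square of the sum of the weights. -/
theorem cost_all (b : Fin m → Fin k → ℕ) (Bl : Finset (Fin m)) (w : Fin k → ℝ)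
    (z : Fin m → ℝ) {δ : ℝ} (hδ : 0 ≤ δ) : Cost b Bl w z δ fun p =>
      (((mult b p : ℝ) - 4) + 4 * δ * (mult b p - 1)) / (4 * mult b p) * sw b w p ^ 2 := by
  intro p _
  have h2 := cs b w p
  have h5 := sq_nonneg (z p + sw b w p / 2 - 2)
  rcases Nat.eq_zero_or_pos (mult b p) with h0 | h0
  · have h1 : ∀ i, b p i = 0 := fun i => Finset.sum_eq_zero_iff.1 h0 i (Finset.mem_univ i)
    have e1 : sw b w p = 0 := by
      unfold sw
      exact Finset.sum_eq_zero fun i _ => by rw [h1 i]; simp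
    have e2 : qw b w p = 0 := by
      unfold qw
      exact Finset.sum_eq_zero fun i _ => by rw [h1 i]; simp
    simp only [e1, e2] at h5 ⊢
    norm_num at h5 ⊢
    exact h5
  · have h1 : (0 : ℝ) < mult b p := by exact_mod_cast h0
    have h6 : sw b w p ^ 2 / mult b p ≤ qw b w p := by
      rw [div_le_iff₀ h1]
      linarith
    have h7 : (((mult b p : ℝ) - 4) + 4 * δ * (mult b p - 1)) / (4 * mult b p) * sw b w p ^ 2 =
        (1 / 4 + δ) * sw b w p ^ 2 - (1 + δ) * (sw b w p ^ 2 / mult b p) := by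
      field_simp
      ring
    have h8 := mul_le_mul_of_nonneg_left h6 (show 0 ≤ 1 + δ by linarith)
    show δ * (sw b w p ^ 2 - qw b w p) -
      (((mult b p : ℝ) - 4) + 4 * δ * (mult b p - 1)) / (4 * mult b p) * sw b w p ^ 2 ≤ _
    rw [h7]
    linarith

/-- `z ≥ 0`: the cost with a parameter `θ` in `[0, 1]`, which is linear in the weights for `δ = 0`. -/
theorem cost_theta (b : Fin m → Fin k → ℕ) (Bl : Finset (Fin m)) (w : Fin k → ℝ)
    (hw : ∀ i, 0 ≤ w i) (z : Fin m → ℝ) (hz : ∀ p ∈ Bl, 0 ≤ z p) (θ : Fin m → ℝ)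
    (hθ : ∀ p, 0 ≤ θ p ∧ θ p ≤ 1) (δ : ℝ) : Cost b Bl w z δ fun p =>
      δ * (sw b w p ^ 2 - qw b w p) +
        ((2 - 2 * θ p) * sw b w p + (mult b p * θ p ^ 2 / 4 - 1) * qw b w p) := by
  intro p hp
  have hS := sw_nonneg b hw p
  have h2 := cs b w p
  show δ * (sw b w p ^ 2 - qw b w p) - (δ * (sw b w p ^ 2 - qw b w p) +
        ((2 - 2 * θ p) * sw b w p + (mult b p * θ p ^ 2 / 4 - 1) * qw b w p)) ≤ _
  have hzp := hz p hp
  obtain ⟨ht0, ht1⟩ := hθ p
  have h3 : 0 ≤ z p * sw b w p * (1 - θ p) :=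
    mul_nonneg (mul_nonneg hzp hS) (by linarith)
  have h4 : θ p ^ 2 * sw b w p ^ 2 ≤ θ p ^ 2 * (mult b p * qw b w p) :=
    mul_le_mul_of_nonneg_left h2 (sq_nonneg _)
  nlinarith [sq_nonneg (2 - z p - θ p * sw b w p / 2)]

/-- Large orders: all weights in `[1 - 1 / (4 r), 1]`, points of multiplicity at most `r`. -/
theorem cost_large (b : Fin m → Fin k → ℕ) (Bl : Finset (Fin m)) (w : Fin k → ℝ) (z : Fin m → ℝ)
    {r : ℕ} (hr : 1 ≤ r) (hbr : ∀ p ∈ Bl, mult b p ≤ r)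
    (hw : ∀ i, 1 - 1 / (4 * (r : ℝ)) ≤ w i ∧ w i ≤ 1)
    (hz : ∀ p ∈ Bl, 1 - 1 / (4 * (r : ℝ)) ≤ z p ∧ z p ≤ 1) :
    Cost b Bl w z (1 / (2 * (r : ℝ) ^ 2)) 0 := by
  intro p hp
  have hr0 : (1 : ℝ) ≤ r := by exact_mod_cast hr
  have hrp : (0 : ℝ) < r := by linarith
  set ε : ℝ := 1 / (4 * (r : ℝ)) with hε
  have hεr : ε * r = 1 / 4 := by
    rw [hε]
    field_simp
  have hε0 : 0 < ε := by positivity
  have hε1 : ε ≤ 1 / 4 := by nlinarith
  have hk : (mult b p : ℝ) ≤ r := by exact_mod_cast hbr p hp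
  have hk0 : (0 : ℝ) ≤ mult b p := Nat.cast_nonneg _
  have hw0 : ∀ i, 0 ≤ w i := fun i => by linarith [(hw i).1]
  have e2 : ∑ i, (b p i : ℝ) = mult b p := by
    unfold mult
    push_cast
    rfl
  -- the sum of the `1 - w`
  have hS1 : sw b w p ≤ mult b p := by
    rw [← e2]
    unfold sw
    exact Finset.sum_le_sum fun i _ => mul_le_of_le_one_right (Nat.cast_nonneg _) (hw i).2
  have hS2 : (1 - ε) * mult b p ≤ sw b w p := by
    rw [← e2, Finset.mul_sum]
    unfold sw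
    exact Finset.sum_le_sum fun i _ => by
      have := mul_le_mul_of_nonneg_left (hw i).1 (Nat.cast_nonneg (α := ℝ) (b p i))
      linarith
  have hQ : 2 * sw b w p - mult b p ≤ qw b w p := by
    rw [← e2]
    unfold sw qw
    rw [Finset.mul_sum, ← Finset.sum_sub_distrib]
    refine Finset.sum_le_sum fun i _ => ?_
    have := mul_nonneg (Nat.cast_nonneg (α := ℝ) (b p i)) (sq_nonneg (1 - w i))
    nlinarith
  obtain ⟨hz1, hz2⟩ := hz p hp
  rw [Pi.zero_apply, sub_zero]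
  have hS0 := sw_nonneg b hw0 p
  have hQ0 := qw_nonneg b w p
  have hleft : 1 / (2 * (r : ℝ) ^ 2) * (sw b w p ^ 2 - qw b w p) ≤ 1 / 2 := by
    have h1 : sw b w p ^ 2 - qw b w p ≤ (r : ℝ) ^ 2 := by
      have h2 : sw b w p ^ 2 ≤ (r : ℝ) ^ 2 := pow_le_pow_left₀ hS0 (hS1.trans hk) 2
      linarith
    have h3 : 0 < 1 / (2 * (r : ℝ) ^ 2) := by positivity
    calc 1 / (2 * (r : ℝ) ^ 2) * (sw b w p ^ 2 - qw b w p) ≤ 1 / (2 * (r : ℝ) ^ 2) * (r : ℝ) ^ 2 :=
          mul_le_mul_of_nonneg_left h1 h3.le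
      _ = 1 / 2 := by field_simp
  refine hleft.trans ?_
  -- `A` is the sum of the `1 - w`, `c = 1 - z`
  set A : ℝ := mult b p - sw b w p with hA
  set c : ℝ := 1 - z p with hc
  have hA0 : 0 ≤ A := by linarith
  have hc0 : 0 ≤ c := by linarith
  have hkε : ε * mult b p ≤ 1 / 4 := by
    have := mul_le_mul_of_nonneg_left hk hε0.le
    linarith
  have hA1 : A ≤ 1 / 4 := by linarith
  have hc1 : c * mult b p ≤ 1 / 4 := by
    have h1 : c ≤ ε := by linarith
    have := mul_le_mul_of_nonneg_right h1 hk0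
    linarith
  have hid : (z p + sw b w p / 2 - 2) ^ 2 + (qw b w p - sw b w p ^ 2 / 4) =
      1 + 2 * c + c ^ 2 - c * mult b p + c * A - A + (qw b w p - (2 * sw b w p - mult b p)) := by
    rw [hA, hc]
    ring
  rw [hid]
  have := mul_nonneg hc0 hA0
  nlinarith [sq_nonneg c]

end Pool.Agent.Helper14.BI
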