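import Pool.Agent.Helper14.BI.Gap
import Pool.Agent.Helper14.BQ.Star

/-!
Immersed surfaces: lower bounds for the sum over the pairs of branches.
-/

set_option autoImplicit false

open Finset

namespace Pool.Agent.Helper14.BI

variable {k m : ℕ} {V : Type} [AddCommGroup V] [Module ℝ V] {K : V} {g : Fin k → ℕ}

open Pool.Agent.Helper14.BQ (pairSum motzkin_straus card_le_rank_star sqSurf mem_sqSurf)

private lemma pairs_ge {B : V →ₗ[ℝ] V →ₗ[ℝ] ℝ} {t : Fin k → V}
    (hpos : ∀ i j, i ≠ j → 0 ≤ B (t i) (t j)) (w y : Fin k → ℝ) (hw : ∀ i, 0 ≤ w i)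
    (c : Fin k → Fin k → ℝ) (hc1 : ∀ a, c a a = 1) (I : Finset (Fin k)) {N : ℝ} (hN : 0 ≤ N)
    (hc : ∀ i j, i ≠ j → c i j * y i * y j ≤ N * (w i * w j * B (t i) (t j))) :
    ∑ i ∈ I, ∑ j ∈ I, c i j * y i * y j ≤ ∑ i ∈ I, y i ^ 2 + N * pairSum B t w := by
  classical
  have h1 : ∀ i j, c i j * y i * y j ≤ (if i = j then y i ^ 2 else 0) +
      N * (if i = j then 0 else w i * w j * B (t i) (t j)) := by
    intro i j
    by_cases hij : i = j
    · subst hij
      rw [if_pos rfl, if_pos rfl, hc1]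
      nlinarith
    · rw [if_neg hij, if_neg hij, zero_add]
      exact hc i j hij
  have hn : ∀ i j, 0 ≤ (if i = j then 0 else w i * w j * B (t i) (t j)) := by
    intro i j
    split_ifs with hij
    · exact le_refl _
    · exact mul_nonneg (mul_nonneg (hw i) (hw j)) (hpos i j hij)
  have h2 : ∑ i ∈ I, ∑ j ∈ I, c i j * y i * y j ≤ ∑ i ∈ I, ∑ j ∈ I, ((if i = j then y i ^ 2 else 0) +
      N * (if i = j then 0 else w i * w j * B (t i) (t j))) :=
    Finset.sum_le_sum fun i _ => Finset.sum_le_sum fun j _ => h1 i j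
  refine h2.trans ?_
  simp only [Finset.sum_add_distrib, ← Finset.mul_sum]
  have e1 : ∑ i ∈ I, ∑ j ∈ I, (if i = j then y i ^ 2 else 0) = ∑ i ∈ I, y i ^ 2 :=
    Finset.sum_congr rfl fun i hi => by rw [Finset.sum_ite_eq, if_pos hi]
  rw [e1]
  have e2 : ∑ i ∈ I, ∑ j ∈ I, (if i = j then 0 else w i * w j * B (t i) (t j)) ≤ pairSum B t w := by
    unfold pairSum
    exact (Finset.sum_le_sum fun i _ => Finset.sum_le_univ_sum_of_nonneg fun j => hn i j).trans
      (Finset.sum_le_univ_sum_of_nonneg fun i => Finset.sum_nonneg fun j _ => hn i j)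
  have := mul_le_mul_of_nonneg_left e2 hN
  linarith

lemma star_eq (B : V →ₗ[ℝ] V →ₗ[ℝ] ℝ) (t : Fin k → V) (w : Fin k → ℝ) :
    star B t w = ∑ i ∈ sqSurf B t, w i * √|B (t i) (t i)| :=
  Pool.Agent.Helper14.BQ.star_eq B t w

/-- The squares force intersections. -/
theorem pairSum_ge_star {B : V →ₗ[ℝ] V →ₗ[ℝ] ℝ} {t : Fin k → V}
    (hpos : ∀ i j, i ≠ j → 0 ≤ B (t i) (t j)) (w : Fin k → ℝ) (hw : ∀ i, 0 ≤ w i) {N : ℕ}
    (hN1 : 1 ≤ N) (hN : Module.finrank ℝ (Submodule.span ℝ (Set.range t)) ≤ N)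
    (hB : ∀ x y, B x y = B y x) :
    (star B t w ^ 2 / N - ∑ i, w i ^ 2 * |B (t i) (t i)|) / N ≤ pairSum B t w := by
  classical
  have hNpos : (0 : ℝ) < N := by exact_mod_cast hN1
  set c : Fin k → Fin k → ℝ := fun i j =>
    if i = j ∨ √|B (t i) (t i)| * √|B (t j) (t j)| ≤ N * B (t i) (t j) then 1 else 0 with hcdef
  have hc1 : ∀ a, c a a = 1 := fun a => by simp [hcdef]
  have hsym : ∀ a b, c a b = c b a := fun a b => by
    simp only [hcdef, hB (t a) (t b), eq_comm (a := a), mul_comm (√|B (t a) (t a)|)]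
  have h01 : ∀ a b, c a b = 0 ∨ c a b = 1 := fun a b => by
    simp only [hcdef]
    split_ifs <;> simp
  have hy : ∀ i, 0 ≤ w i * √|B (t i) (t i)| := fun i => mul_nonneg (hw i) (Real.sqrt_nonneg _)
  have hms := motzkin_straus c hc1 hsym h01 N (sqSurf B t).card (sqSurf B t) rfl (by
    intro J hJ hJ0
    refine card_le_rank_star hN1 hN J (fun i hi => mem_sqSurf.1 (hJ hi))
      fun i hi j hj hij => ⟨hpos i j hij, ?_⟩
    by_contra h1
    have h2 := hJ0 i hi j hj hij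
    simp only [hcdef] at h2
    rw [if_pos (Or.inr (not_lt.1 h1))] at h2
    exact one_ne_zero h2) (fun i => w i * √|B (t i) (t i)|) hy
  have h1 := pairs_ge hpos w (fun i => w i * √|B (t i) (t i)|) hw c hc1 (sqSurf B t) hNpos.le (by
    intro i j hij
    have h2 := hpos i j hij
    have h3 : 0 ≤ w i * w j := mul_nonneg (hw i) (hw j)
    simp only [hcdef]
    split_ifs with h4
    · have h5 := h4.resolve_left hij
      have h6 := mul_le_mul_of_nonneg_left h5 h3
      calc 1 * (w i * √|B (t i) (t i)|) * (w j * √|B (t j) (t j)|)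
          = w i * w j * (√|B (t i) (t i)| * √|B (t j) (t j)|) := by ring
        _ ≤ w i * w j * (N * B (t i) (t j)) := h6
        _ = N * (w i * w j * B (t i) (t j)) := by ring
    · rw [zero_mul, zero_mul]
      exact mul_nonneg hNpos.le (mul_nonneg h3 h2))
  have h2 : star B t w ^ 2 / N ≤ ∑ a ∈ sqSurf B t, ∑ b ∈ sqSurf B t,
      c a b * (w a * √|B (t a) (t a)|) * (w b * √|B (t b) (t b)|) := by
    rw [div_le_iff₀ hNpos, star_eq]
    linarith
  have h3 : ∑ i ∈ sqSurf B t, (w i * √|B (t i) (t i)|) ^ 2 ≤ ∑ i, w i ^ 2 * |B (t i) (t i)| := by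
    have e1 : ∀ i, (w i * √|B (t i) (t i)|) ^ 2 = w i ^ 2 * |B (t i) (t i)| := fun i => by
      rw [mul_pow, Real.sq_sqrt (abs_nonneg _)]
    simp only [e1]
    exact Finset.sum_le_univ_sum_of_nonneg fun i => mul_nonneg (sq_nonneg _) (abs_nonneg _)
  rw [div_le_iff₀ hNpos]
  linarith

/-- The pairs of branches: different surfaces, and the self-intersections. -/
theorem pairs_eq {B : V →ₗ[ℝ] V →ₗ[ℝ] ℝ} {b : Fin m → Fin k → ℕ} {t : Fin k → V}
    (h : Arr B K b g t) (w : Fin k → ℝ) :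
    pairs b w = pairSum B t w + ∑ i, w i ^ 2 * (B (t i) (t i) - nrm B K g t i) := by
  have h1 := tsq h w
  have h2 : ∑ i, ∑ j, w i * w j * B (t i) (t j) =
      pairSum B t w + ∑ i, w i ^ 2 * B (t i) (t i) := by
    have h3 : ∀ i j, w i * w j * B (t i) (t j) =
        (if i = j then 0 else w i * w j * B (t i) (t j)) +
          if i = j then w i ^ 2 * B (t i) (t i) else 0 := by
      intro i j
      by_cases hij : i = j
      · subst hij
        rw [if_pos rfl, if_pos rfl]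
        ring
      · rw [if_neg hij, if_neg hij, add_zero]
    rw [Finset.sum_congr rfl fun i _ => Finset.sum_congr rfl fun j _ => h3 i j]
    simp only [Finset.sum_add_distrib]
    unfold pairSum
    congr 1
    exact Finset.sum_congr rfl fun i _ => by rw [Finset.sum_ite_eq, if_pos (Finset.mem_univ i)]
  have h4 : ∑ i, w i ^ 2 * (B (t i) (t i) - nrm B K g t i) =
      ∑ i, w i ^ 2 * B (t i) (t i) - ∑ i, w i ^ 2 * nrm B K g t i := by
    rw [← Finset.sum_sub_distrib]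
    exact Finset.sum_congr rfl fun i _ => by ring
  rw [h4]
  linarith

/-- The self-intersection is at least the Euler number of the normal bundle. -/
theorem nrm_le {B : V →ₗ[ℝ] V →ₗ[ℝ] ℝ} {b : Fin m → Fin k → ℕ} {t : Fin k → V}
    (h : Arr B K b g t) (i : Fin k) : nrm B K g t i ≤ B (t i) (t i) := by
  have h1 := h.adj i
  have h2 : 0 ≤ ∑ p, (b p i : ℝ) * (b p i - 1) := by
    refine Finset.sum_nonneg fun p _ => ?_
    rcases Nat.eq_zero_or_pos (b p i) with h0 | h0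
    · rw [h0]
      simp
    · have : (1 : ℝ) ≤ b p i := by exact_mod_cast h0
      exact mul_nonneg (Nat.cast_nonneg _) (by linarith)
  unfold nrm
  linarith

/-- The pairs of branches against the squares of the surfaces. -/
theorem pairs_low {B : V →ₗ[ℝ] V →ₗ[ℝ] ℝ} (hB : ∀ x y, B x y = B y x)
    {b : Fin m → Fin k → ℕ} {t : Fin k → V}
    (h : Arr B K b g t) (w : Fin k → ℝ) (hw : ∀ i, 0 ≤ w i) {N : ℕ}
    (hN1 : 1 ≤ N) (hN : Module.finrank ℝ (Submodule.span ℝ (Set.range t)) ≤ N) :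
    (star B t w / N) ^ 2 +
      ∑ i, w i ^ 2 * (B (t i) (t i) - nrm B K g t i - |B (t i) (t i)| / N) ≤ pairs b w := by
  have hpos : ∀ i j, i ≠ j → 0 ≤ B (t i) (t j) := fun i j hij => by
    rw [h.inter i j hij]
    exact Finset.sum_nonneg fun p _ => mul_nonneg (Nat.cast_nonneg _) (Nat.cast_nonneg _)
  have h1 := pairSum_ge_star hpos w hw hN1 hN hB
  rw [pairs_eq h]
  have hNpos : (0 : ℝ) < N := by exact_mod_cast hN1
  have h2 : (star B t w ^ 2 / N - ∑ i, w i ^ 2 * |B (t i) (t i)|) / N =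
      (star B t w / N) ^ 2 - ∑ i, w i ^ 2 * (|B (t i) (t i)| / N) := by
    have e1 : ∑ i, w i ^ 2 * (|B (t i) (t i)| / N) = (∑ i, w i ^ 2 * |B (t i) (t i)|) / N := by
      rw [Finset.sum_div]
      exact Finset.sum_congr rfl fun i _ => by ring
    rw [e1]
    field_simp
  have h3 : ∑ i, w i ^ 2 * (B (t i) (t i) - nrm B K g t i - |B (t i) (t i)| / N) =
      ∑ i, w i ^ 2 * (B (t i) (t i) - nrm B K g t i) - ∑ i, w i ^ 2 * (|B (t i) (t i)| / N) := by
    rw [← Finset.sum_sub_distrib]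
    exact Finset.sum_congr rfl fun i _ => by ring
  rw [h3]
  linarith

private lemma one_surface {s n w R ρ δ N : ℝ} {γ : ℕ} (hns : n ≤ s) (hw0 : 0 ≤ w) (hw1 : w ≤ 1)
    (hδ0 : 0 ≤ δ) (hδ : δ ≤ 1 / 2) (hN : 1 ≤ N) (hR : -n - γ ≤ R * ρ) (hRρ : 0 ≤ R * ρ)
    {c : ℝ} (hc : c = w ∨ (c = 0 ∧ 1 ≤ γ ∧ 1 ≤ (γ : ℝ) + n)) :
    -(2 * (w * (R * ρ))) - 2 * c ≤ w * (2 * (γ : ℝ) - 2 + (2 - w) * n) +
      δ * (w ^ 2 * (s - n - |s| / N)) := by
  have hγ : (0 : ℝ) ≤ γ := Nat.cast_nonneg _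
  have hw2 : w ^ 2 ≤ w := by nlinarith
  have hw20 : 0 ≤ w ^ 2 := sq_nonneg w
  have hwR : 0 ≤ w * (R * ρ) := mul_nonneg hw0 hRρ
  have hsN : |s| / N ≤ |s| := div_le_self (abs_nonneg _) hN
  -- the lower bound of the last summand
  rcases le_or_gt 0 n with hn | hn
  · have hs : 0 ≤ s := hn.trans hns
    rw [abs_of_nonneg hs] at hsN ⊢
    have h1 : w ^ 2 * (-n) ≤ w ^ 2 * (s - n - s / N) :=
      mul_le_mul_of_nonneg_left (by linarith) hw20
    have h2 : δ * (w ^ 2 * (-n)) ≤ δ * (w ^ 2 * (s - n - s / N)) :=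
      mul_le_mul_of_nonneg_left h1 hδ0
    have h3 : δ * (w ^ 2 * n) ≤ 1 / 2 * (w ^ 2 * n) :=
      mul_le_mul_of_nonneg_right hδ (mul_nonneg hw20 hn)
    have h4 : w ^ 2 * n ≤ w * n := mul_le_mul_of_nonneg_right hw2 hn
    have h5 : 0 ≤ w * n := mul_nonneg hw0 hn
    have h6 : 0 ≤ w * γ := mul_nonneg hw0 hγ
    rcases hc with hc | ⟨hc, hg1, -⟩
    · rw [hc]
      nlinarith
    · rw [hc]
      have hg1' : (1 : ℝ) ≤ γ := by exact_mod_cast hg1
      have h7 : 0 ≤ w * (γ - 1) := mul_nonneg hw0 (by linarith)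
      nlinarith
  · have key : 0 ≤ w ^ 2 * (-n) + δ * (w ^ 2 * (s - n - |s| / N)) := by
      rcases le_or_gt 0 s with hs | hs
      · rw [abs_of_nonneg hs] at hsN ⊢
        have h1 : 0 ≤ w ^ 2 * (s - n - s / N) := mul_nonneg hw20 (by linarith)
        have h2 : 0 ≤ w ^ 2 * (-n) := mul_nonneg hw20 (by linarith)
        have h3 := mul_nonneg hδ0 h1
        linarith
      · rw [abs_of_neg hs] at hsN ⊢
        have h1 : w ^ 2 * n ≤ w ^ 2 * (s - n - -s / N) :=
          mul_le_mul_of_nonneg_left (by linarith) hw20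
        have h2 : δ * (w ^ 2 * n) ≤ δ * (w ^ 2 * (s - n - -s / N)) :=
          mul_le_mul_of_nonneg_left h1 hδ0
        have h3 : 0 ≤ w ^ 2 * (-n) := mul_nonneg hw20 (by linarith)
        have h4 : δ * (w ^ 2 * (-n)) ≤ 1 / 2 * (w ^ 2 * (-n)) := mul_le_mul_of_nonneg_right hδ h3
        have h5 : δ * (w ^ 2 * (-n)) = -(δ * (w ^ 2 * n)) := by ring
        linarith
    have e1 : w * (2 * (γ : ℝ) - 2 + (2 - w) * n) + δ * (w ^ 2 * (s - n - |s| / N)) =
        2 * (w * (γ + n - 1)) + (w ^ 2 * (-n) + δ * (w ^ 2 * (s - n - |s| / N))) := by ring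
    rw [e1]
    rcases hc with hc | ⟨hc, -, hg1⟩
    · rw [hc]
      have h1 : w * (-n - γ) ≤ w * (R * ρ) := mul_le_mul_of_nonneg_left hR hw0
      nlinarith
    · rw [hc]
      have h1 : 0 ≤ w * (γ + n - 1) := mul_nonneg hw0 (by linarith)
      linarith

/-- The curvature term and the pairs against the squares. -/
theorem curv_low {B : V →ₗ[ℝ] V →ₗ[ℝ] ℝ} (hB : ∀ x y, B x y = B y x)
    {b : Fin m → Fin k → ℕ} {t : Fin k → V}
    (h : Arr B K b g t) (w : Fin k → ℝ) (hw : ∀ i, 0 ≤ w i) (hw1 : ∀ i, w i ≤ 1) {N : ℕ}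
    (hN1 : 1 ≤ N) (hN : Module.finrank ℝ (Submodule.span ℝ (Set.range t)) ≤ N) {δ : ℝ}
    (hδ0 : 0 ≤ δ) (hδ : δ ≤ 1 / 2) {R : ℝ} (hR0 : 0 ≤ R)
    (hR : ∀ i, -nrm B K g t i - g i ≤ R * √|B (t i) (t i)|) :
    δ * (star B t w / N) ^ 2 - 2 * R * star B t w - 2 * low B K g t w ≤
      curv B K g t w + δ * pairs b w := by
  classical
  have h1 := mul_le_mul_of_nonneg_left (pairs_low hB h w hw hN1 hN) hδ0
  have h2 : -(2 * R * star B t w) - 2 * low B K g t w ≤ curv B K g t w +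
      δ * ∑ i, w i ^ 2 * (B (t i) (t i) - nrm B K g t i - |B (t i) (t i)| / N) := by
    unfold star low curv
    rw [Finset.mul_sum, Finset.mul_sum, Finset.mul_sum, ← Finset.sum_neg_distrib,
      ← Finset.sum_sub_distrib, ← Finset.sum_add_distrib]
    refine Finset.sum_le_sum fun i _ => ?_
    have h3 := one_surface (s := B (t i) (t i)) (n := nrm B K g t i) (w := w i) (R := R)
      (ρ := √|B (t i) (t i)|) (δ := δ) (N := N) (γ := g i)
      (c := if g i = 0 ∨ (g i : ℝ) + nrm B K g t i < 1 then w i else 0) (nrm_le h i) (hw i)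
      (hw1 i) hδ0 hδ (by exact_mod_cast hN1) (hR i) (mul_nonneg hR0 (Real.sqrt_nonneg _)) (by
        split_ifs with h4
        · exact Or.inl rfl
        · rw [not_or, not_lt] at h4
          exact Or.inr ⟨rfl, Nat.one_le_iff_ne_zero.2 h4.1, h4.2⟩)
    have e1 : 2 * R * (w i * √|B (t i) (t i)|) = 2 * (w i * (R * √|B (t i) (t i)|)) := by ring
    rw [e1]
    exact h3
  linarith

/-- The curvature term and the pairs against the square of the branch class. -/
theorem curv_sq {B : V →ₗ[ℝ] V →ₗ[ℝ] ℝ}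
    {b : Fin m → Fin k → ℕ} {t : Fin k → V}
    (h : Arr B K b g t) (w : Fin k → ℝ) (hw : ∀ i, 0 ≤ w i) (hw1 : ∀ i, w i ≤ 1) {δ : ℝ}
    (hδ0 : 0 ≤ δ) (hδ : δ ≤ 1 / 2) {c : Fin k → ℝ}
    (hc : ∀ i, B K (t i) + 3 - 3 * g i ≤ c i ∧ B K (t i) + 6 - 6 * g i ≤ 4 * c i) :
    δ * ∑ i, ∑ j, w i * w j * B (t i) (t j) - 2 * ∑ i, w i * c i ≤
      curv B K g t w + δ * pairs b w := by
  rw [tsq h w]
  have h2 : -(2 * ∑ i, w i * c i) ≤ curv B K g t w - δ * ∑ i, w i ^ 2 * nrm B K g t i := by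
    unfold curv
    rw [Finset.mul_sum, Finset.mul_sum, ← Finset.sum_neg_distrib, ← Finset.sum_sub_distrib]
    refine Finset.sum_le_sum fun i _ => ?_
    obtain ⟨hc1, hc2⟩ := hc i
    have hwi := hw i
    have hwi1 := hw1 i
    have en : B K (t i) = 2 * g i - 2 - nrm B K g t i := by
      unfold nrm
      ring
    rw [en] at hc1 hc2
    set n := nrm B K g t i with hn
    have h3 : 0 ≤ (2 * (g i : ℝ) - 2 + (2 - w i) * n) - δ * (w i * n) + 2 * c i := by
      rcases le_or_gt 0 n with h4 | h4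
      · have h5 : w i * n ≤ n := mul_le_of_le_one_left h4 hwi1
        have h6 : 0 ≤ w i * n := mul_nonneg hwi h4
        have h7 : δ * (w i * n) ≤ 1 / 2 * (w i * n) := mul_le_mul_of_nonneg_right hδ h6
        linarith
      · have h6 : w i * n ≤ 0 := mul_nonpos_of_nonneg_of_nonpos hwi h4.le
        have h7 : δ * (w i * n) ≤ 0 := mul_nonpos_of_nonneg_of_nonpos hδ0 h6
        linarith
    have h4 := mul_nonneg hwi h3
    have e1 : w i * ((2 * (g i : ℝ) - 2 + (2 - w i) * n) - δ * (w i * n) + 2 * c i) =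
      w i * (2 * (g i : ℝ) - 2 + (2 - w i) * n) - δ * (w i ^ 2 * n) + 2 * (w i * c i) := by ring
    rw [e1] at h4
    linarith
  linarith

end Pool.Agent.Helper14.BI
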