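import Pool.Agent.Helper14.BI.Low

/-!
# MP_872606_gt: coverings of an arbitrary symplectic four-manifold, branched along immersed surfaces
-/

set_option autoImplicit false

open Finset

namespace Pool.Agent.Helper14.BI

private lemma square {k : ℕ} {V : Type} [AddCommGroup V] [Module ℝ V]
    (B : V →ₗ[ℝ] V →ₗ[ℝ] ℝ) (t : Fin k → V) (w : Fin k → ℝ) :
    B (∑ i, w i • t i) (∑ j, w j • t j) = ∑ i, ∑ j, w i * w j * B (t i) (t j) := by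
  rw [map_sum B, LinearMap.sum_apply]
  refine Finset.sum_congr rfl fun i _ => ?_
  rw [map_sum]
  refine Finset.sum_congr rfl fun j _ => ?_
  rw [map_smul, map_smul, LinearMap.smul_apply, smul_eq_mul, smul_eq_mul]
  ring

/-- Points of small multiplicity cost nothing. -/
theorem cost_zero {k m : ℕ} (b : Fin m → Fin k → ℕ) (Bl : Finset (Fin m)) (w : Fin k → ℝ)
    (z : Fin m → ℝ) {δ : ℝ} (hδ : 0 ≤ δ)
    (hm : ∀ p ∈ Bl, 4 * δ * ((mult b p : ℝ) - 1) ≤ 4 - mult b p) : Cost b Bl w z δ 0 := by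
  intro p hp
  have h1 := cost_all b Bl w z hδ p hp
  have h2 : (((mult b p : ℝ) - 4) + 4 * δ * (mult b p - 1)) / (4 * mult b p) * sw b w p ^ 2 ≤ 0 :=
    mul_nonpos_of_nonpos_of_nonneg
      (div_nonpos_of_nonpos_of_nonneg (by linarith [hm p hp])
        (mul_nonneg (by norm_num) (Nat.cast_nonneg _))) (sq_nonneg _)
  rw [Pi.zero_apply]
  linarith

theorem result (V : Type) [AddCommGroup V] [Module ℝ V] (B : V →ₗ[ℝ] V →ₗ[ℝ] ℝ)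
    (hB : ∀ x y, B x y = B y x) (k m N : ℕ) (K : V) (b : Fin m → Fin k → ℕ) (g : Fin k → ℕ)
    (t : Fin k → V) (h : Arr B K b g t) (hN1 : 1 ≤ N)
    (hN : Module.finrank ℝ (Submodule.span ℝ (Set.range t)) ≤ N) (e : ℝ)
    (Bl : Finset (Fin m)) (hBl : ∀ p ∉ Bl, mult b p = 2) (w : Fin k → ℝ) (z : Fin m → ℝ)
    (hw : ∀ i, 0 ≤ w i) (T : V) (hT : T = ∑ i, w i • t i) (c₁sq c₂ : ℝ)
    (hc₁ : c₁sq = cOneSq b (B (K + T) (K + T)) Bl w z) (hc₂ : c₂ = cTwo b e g Bl w z) :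
    (∀ δ : ℝ, 0 ≤ δ → δ ≤ 1 / 2 → ∀ κ : Fin m → ℝ, Cost b Bl w z δ κ →
      c₁sq + (3 * e - B K K) + curv B K g t w + δ * pairs b w ≤ 3 * c₂ + ∑ p ∈ Bl, κ p ∧
      ((∀ i, w i ≤ 1) →
        (∀ c : Fin k → ℝ, (∀ i, B K (t i) + 3 - 3 * g i ≤ c i ∧
            B K (t i) + 6 - 6 * g i ≤ 4 * c i) →
          c₁sq + (3 * e - B K K) + δ * B T T ≤
            3 * c₂ + 2 * ∑ i, w i * c i + ∑ p ∈ Bl, κ p) ∧
        ∀ R : ℝ, 0 ≤ R → (∀ i, -nrm B K g t i - g i ≤ R * √|B (t i) (t i)|) →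
          c₁sq + (3 * e - B K K) + δ * (star B t w / N) ^ 2 ≤
            3 * c₂ + 2 * R * star B t w + 2 * low B K g t w + ∑ p ∈ Bl, κ p)) ∧
    pairs b w = B T T - ∑ i, w i ^ 2 * nrm B K g t i ∧
    (star B t w / N) ^ 2 +
      ∑ i, w i ^ 2 * (B (t i) (t i) - nrm B K g t i - |B (t i) (t i)| / N) ≤ pairs b w ∧
    (∀ δ : ℝ, 0 ≤ δ → Cost b Bl w z δ fun p =>
      (((mult b p : ℝ) - 4) + 4 * δ * (mult b p - 1)) / (4 * mult b p) * sw b w p ^ 2) ∧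
    (∀ δ : ℝ, 0 ≤ δ → (∀ p ∈ Bl, 4 * δ * ((mult b p : ℝ) - 1) ≤ 4 - mult b p) →
      Cost b Bl w z δ 0) ∧
    (∀ (δ : ℝ) (θ : Fin m → ℝ), (∀ p ∈ Bl, 0 ≤ z p) → (∀ p, 0 ≤ θ p ∧ θ p ≤ 1) →
      Cost b Bl w z δ fun p => δ * (sw b w p ^ 2 - qw b w p) +
        ((2 - 2 * θ p) * sw b w p + (mult b p * θ p ^ 2 / 4 - 1) * qw b w p)) ∧
    (∀ r : ℕ, 1 ≤ r → (∀ p ∈ Bl, mult b p ≤ r) →
      (∀ i, 1 - 1 / (4 * (r : ℝ)) ≤ w i ∧ w i ≤ 1) →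
      (∀ p ∈ Bl, 1 - 1 / (4 * (r : ℝ)) ≤ z p ∧ z p ≤ 1) →
      Cost b Bl w z (1 / (2 * (r : ℝ) ^ 2)) 0) := by
  subst hT hc₁ hc₂
  refine ⟨fun δ hδ0 hδ κ hc => ?_, ?_, pairs_low hB h w hw hN1 hN, fun δ hδ0 => cost_all b Bl w z hδ0,
    fun δ hδ0 hm => cost_zero b Bl w z hδ0 hm, fun δ θ hz hθ => cost_theta b Bl w hw z hz θ hθ δ,
    fun r hr h3 hwn hzn => cost_large b Bl w z hr h3 hwn hzn⟩
  · have h0 := main_pairs hB h e Bl hBl w hw z hδ hc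
    refine ⟨h0, fun hw1 => ⟨fun c hcc => ?_, fun R hR0 hR => ?_⟩⟩
    · have h1 := curv_sq h w hw hw1 hδ0 hδ hcc
      rw [square]
      linarith
    · have h1 := curv_low hB h w hw hw1 hN1 hN hδ0 hδ hR0 hR
      linarith
  · rw [square, tsq h w]
    ring

end Pool.Agent.Helper14.BI
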